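import Pool.Agent.Q260.DJ.Bk
import Pool.Agent.Q211.BD.FQ

set_option autoImplicit false

/-!
# Project BD, job JQ: few zeros of the iterated steps and of `XX`
-/

namespace Pool.Agent.Q225.BD

open Complex Filter Topology Metric Set
open Pool.Agent.H24R2.JP (HH XX FF gam Om)
open Pool.Agent.Q260.DS (Few S_FB)
open Pool.Agent.Q260.DJ
open Pool.Agent.Q211.BD (few_mono few_four)

theorem cl_it (h1 : S_C0) (h2 : S_CD) : ∀ l : List Bool, Cl (It l)
  | [] => h1
  | b :: l => h2 b (It l) (cl_it h1 h2 l)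

theorem log_lo {T u : ℝ} (hT : 100 ≤ T) (hu : T - 12 ≤ u) : Real.log T / 2 ≤ Real.log u := by
  have h1 : T ≤ u ^ 2 := by nlinarith
  have h2 := Real.log_le_log (by linarith) h1
  rw [Real.log_pow] at h2
  push_cast at h2
  linarith

theorem log_hi {T u : ℝ} (hT : 100 ≤ T) (hu0 : 0 < u) (hu : u ≤ T + 12) :
    Real.log u ≤ 2 * Real.log T := by
  have h1 : u ≤ T ^ 2 := by nlinarith
  have h2 := Real.log_le_log hu0 h1
  rw [Real.log_pow] at h2
  push_cast at h2
  linarith

theorem t_JQ (h1 : S_C0) (h2 : S_CD) (h3 : S_JU) (h4 : S_JI) (h5 : S_JC) (h6 : S_JF) : S_JQ := by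
  intro l δ η hδ hδ2 hη
  have hcl := cl_it h1 h2 l
  -- (a)
  obtain ⟨e1, T1, he1, hT1, F1⟩ := h6 XX h1 (δ / 2) η 1 (by linarith) (by linarith) hη
    zero_le_one
  obtain ⟨e2, C2, T2, he2, hC2, hT2, F2⟩ := h4 l e1 he1
  obtain ⟨n3, T3, hn3, hT3, F3⟩ := h3 (It l) hcl e2 (δ / 2) he2 (by linarith) (by linarith)
  -- (b)
  obtain ⟨e4, T4, he4, hT4, F4⟩ := h6 (It l) hcl (δ / 3) η 1 (by linarith) (by linarith) hη
    zero_le_one
  obtain ⟨T5, hT5, F5⟩ := h5 l (e4 / 2) (δ / 3) (by linarith) (by linarith) (by linarith)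
  obtain ⟨n6, T6, hn6, hT6, F6⟩ := h3 XX h1 (e4 / 2) (δ / 3) (by linarith) (by linarith)
    (by linarith)
  refine ⟨min (n3 / 8) (n6 / 8), 2 * C2 + 8, T1 + T2 + T3 + T4 + T5 + T6 + 100, by positivity,
    by linarith, by linarith, ?_⟩
  intro T θ hT h0 hθ
  have hT100 : 100 ≤ T := by linarith
  obtain ⟨L, hL⟩ : ∃ L, L = Real.log T := ⟨_, rfl⟩
  have hL1 : 1 ≤ L := by
    rw [hL]
    have a1 := Real.add_one_le_exp 1
    have a2 : Real.exp 1 ≤ T := by
      have := Real.exp_one_lt_d9
      linarith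
    have a3 := Real.log_le_log (Real.exp_pos 1) a2
    rwa [Real.log_exp] at a3
  constructor
  · intro hFew
    have hh := F1 T (θ + δ / 2) (by linarith) (by linarith) (by linarith) ?_
    · rw [show θ + δ / 2 + δ / 2 = θ + δ by ring] at hh
      exact hh
    intro y hy
    rw [abs_le] at hy
    have hly := log_hi (u := y) hT100 (by linarith) (by linarith)
    rw [← hL] at hly
    refine F2 y (θ + δ / 2) (by linarith) (by linarith) ?_
    intro u hu1 hu2
    have hly2 : C2 * Real.log y ≤ C2 * (2 * L) := mul_le_mul_of_nonneg_left hly (by linarith)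
    have hu3 : u - T ≤ 5 + 2 * C2 * L := by linarith
    have hlu := log_lo (u := u) hT100 (by linarith)
    rw [← hL] at hlu
    refine F3 u θ (by linarith) h0 hθ (few_mono (few_four (x := min (n3 / 8) (n6 / 8) * L) ?_) ?_)
    · intro v hv
      rw [abs_le] at hv
      rw [hL]
      refine hFew v (by linarith) ?_
      rw [← hL]
      have a1 : (2 * C2 + 8) * L = 2 * C2 * L + 8 * L := by ring
      rw [a1]
      linarith
    · have a1 : min (n3 / 8) (n6 / 8) ≤ n3 / 8 := min_le_left _ _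
      have a2 : min (n3 / 8) (n6 / 8) * L ≤ n3 / 8 * L := mul_le_mul_of_nonneg_right a1 (by linarith)
      have a3 : n3 * (L / 2) ≤ n3 * Real.log u := mul_le_mul_of_nonneg_left hlu hn3.le
      linarith
  · intro hFew
    have hh := F4 T (θ + δ / 3 + δ / 3) (by linarith) (by linarith) (by linarith) ?_
    · rw [show θ + δ / 3 + δ / 3 + δ / 3 = θ + δ by ring] at hh
      exact hh
    intro y hy
    rw [abs_le] at hy
    have hh := F5 y (θ + δ / 3) (by linarith) (by linarith) ?_
    · rw [show 2 * (e4 / 2) = e4 by ring] at hh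
      exact hh
    intro v hv
    rw [abs_le] at hv
    have hlv := log_lo (u := v) hT100 (by linarith)
    rw [← hL] at hlv
    refine F6 v θ (by linarith) h0 hθ
      (few_mono (few_four (x := min (n3 / 8) (n6 / 8) * L) ?_) ?_)
    · intro w hw
      rw [abs_le] at hw
      rw [hL]
      refine hFew w ?_
      rw [abs_le]
      constructor <;> linarith
    · have a1 : min (n3 / 8) (n6 / 8) ≤ n6 / 8 := min_le_right _ _
      have a2 : min (n3 / 8) (n6 / 8) * L ≤ n6 / 8 * L := mul_le_mul_of_nonneg_right a1 (by linarith)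
      have a3 : n6 * (L / 2) ≤ n6 * Real.log v := mul_le_mul_of_nonneg_left hlv hn6.le
      linarith

end Pool.Agent.Q225.BD
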